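import Pool.Agent.QPI.Stmts

set_option autoImplicit false

namespace Pool.Agent.QPI.H89

open Pool.Agent.QPI

lemma th_add {K : Type} [Field K] (g h : PowerSeries K) : th (g + h) = th g + th h := by
  ext a
  simp only [th, PowerSeries.coeff_mk, map_add, mul_add]

lemma th_smul {K : Type} [Field K] (c : K) (g : PowerSeries K) : th (c • g) = c • th g := by
  ext a
  simp only [th, PowerSeries.coeff_mk, map_smul, smul_eq_mul]
  ring

/-- `th` as a linear map. -/
noncomputable def thL (K : Type) [Field K] : PowerSeries K →ₗ[K] PowerSeries K where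
  toFun := th
  map_add' := th_add
  map_smul' c g := by simpa using th_smul c g

lemma th_iter {K : Type} [Field K] (a : ℕ) (g : PowerSeries K) : th^[a] g = (thL K ^ a) g := by
  rw [Module.End.pow_apply]
  rfl

lemma th_iter_sum {K : Type} [Field K] {s : ℕ} (a : ℕ) (γ : Fin s → K)
    (g : Fin s → PowerSeries K) :
    th^[a] (∑ b, γ b • g b) = ∑ b, PowerSeries.C (γ b) * th^[a] (g b) := by
  rw [th_iter, map_sum]
  refine Finset.sum_congr rfl fun b _ => ?_
  rw [map_smul, th_iter, PowerSeries.smul_eq_C_mul]

theorem b_col : ColStmt := by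
  intro K τ _ s T t i γ hT
  refine ⟨fun c => ?_, ?_⟩
  · have h1 : (Matrix.of fun a b : Fin s => th^[(a : ℕ)] (T (Function.update t c i b))) =
        (Matrix.of fun a b : Fin s => th^[(a : ℕ)] (T (t b))).updateCol c
          (fun a => ∑ b, PowerSeries.C (γ b) • (Matrix.of fun a b : Fin s =>
            th^[(a : ℕ)] (T (t b))) a b) := by
      ext1 a b
      by_cases hb : b = c
      · subst hb
        rw [Matrix.updateCol_self]
        simp only [Matrix.of_apply, Function.update_self, smul_eq_mul]
        rw [hT, th_iter_sum]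
      · rw [Matrix.updateCol_ne hb]
        simp only [Matrix.of_apply, Function.update_of_ne hb]
    rw [h1, Matrix.det_updateCol_sum, smul_eq_mul]
  · rw [← Matrix.exists_mulVec_eq_zero_iff]
    refine ⟨Fin.snoc (α := fun _ => PowerSeries K) (fun b => PowerSeries.C (γ b)) (-1), ?_, ?_⟩
    · intro h
      have := congrFun h (Fin.last s)
      rw [Fin.snoc_last] at this
      simp at this
    · funext a
      simp only [Matrix.mulVec, dotProduct, Matrix.of_apply, Pi.zero_apply]
      rw [Fin.sum_univ_castSucc]
      simp only [Fin.snoc_castSucc, Fin.snoc_last]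
      rw [hT, th_iter_sum]
      rw [mul_neg, mul_one, ← sub_eq_add_neg, sub_eq_zero]
      exact Finset.sum_congr rfl fun b _ => mul_comm _ _

end Pool.Agent.QPI.H89
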